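import Mathlib
import Pool.Agent.V5helper62.BL.C1
set_option autoImplicit false

/-! One block: reduction to the sphere of lower dimension. -/

namespace Pool.Agent.V5helper62.BL

open MeasureTheory Set Complex
open scoped ENNReal RealInnerProductSpace
open Pool.Agent.TH335.RF (gu wt wt_meas gu_le gu_meas)
open Pool.Agent.H789R2.FR (E sg T sg_finite)
open Pool.Agent.H438R2.BR (J J_mp J_inner)
open Pool.Agent.H438R2.PD (P1 P2 P1_meas P2_meas T_meas' T_le T_comp)

/-- reflection in the hyperplane orthogonal to `v` -/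
noncomputable def rho {n : ℕ} (v x : E n) : E n := x - (2 * ⟪v, x⟫ / ⟪v, v⟫ : ℝ) • v

theorem norm_rho {n : ℕ} (v x : E n) : ‖rho v x‖ = ‖x‖ := by
  have h1 : ‖rho v x‖ ^ 2 = ‖x‖ ^ 2 := by
    unfold rho
    rw [← real_inner_self_eq_norm_sq, ← real_inner_self_eq_norm_sq]
    simp only [inner_sub_left, inner_sub_right, real_inner_smul_left, real_inner_smul_right]
    rw [real_inner_comm v x]
    by_cases h : (⟪v, v⟫ : ℝ) = 0
    · rw [h]; simp
    · field_simp
      ring
  exact (sq_eq_sq₀ (norm_nonneg _) (norm_nonneg _)).1 h1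

theorem rho_swap {n : ℕ} (x x' : E n) (h : ‖x‖ = ‖x'‖) : rho (x - x') x = x' := by
  unfold rho
  by_cases hx : x = x'
  · subst hx; simp
  · have h1 : (⟪x - x', x - x'⟫ : ℝ) = 2 * ⟪x - x', x⟫ := by
      simp only [inner_sub_left, inner_sub_right]
      have h2 : (⟪x, x⟫ : ℝ) = ⟪x', x'⟫ := by
        rw [real_inner_self_eq_norm_sq, real_inner_self_eq_norm_sq, h]
      rw [real_inner_comm x x', ← h2]
      ring
    have h3 : (⟪x - x', x - x'⟫ : ℝ) ≠ 0 := by
      rw [Ne, inner_self_eq_zero, sub_eq_zero]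
      exact hx
    rw [← h1, div_self h3, one_smul]
    abel

section J
variable {k m : ℕ}

theorem J_add (x x' : E k) (y y' : E m) : J (x + x') (y + y') = J x y + J x' y' := by
  ext i
  refine Fin.addCases (fun j => ?_) (fun j => ?_) i <;> simp [J, Fin.append_left, Fin.append_right]

theorem J_smul (a : ℝ) (x : E k) (y : E m) : J (a • x) (a • y) = a • J x y := by
  ext i
  refine Fin.addCases (fun j => ?_) (fun j => ?_) i <;> simp [J, Fin.append_left, Fin.append_right]

theorem J_sub (x x' : E k) (y y' : E m) : J (x - x') (y - y') = J x y - J x' y' := by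
  ext i
  refine Fin.addCases (fun j => ?_) (fun j => ?_) i <;> simp [J, Fin.append_left, Fin.append_right]

theorem J_P (z : E (k + m)) : J (P1 k m z) (P2 k m z) = z := by
  ext i
  refine Fin.addCases (fun j => ?_) (fun j => ?_) i <;>
    simp [J, P1, P2, Fin.append_left, Fin.append_right]

theorem J_norm_sq (x : E k) (y : E m) : ‖J x y‖ ^ 2 = ‖x‖ ^ 2 + ‖y‖ ^ 2 := by
  rw [← real_inner_self_eq_norm_sq, J_inner, real_inner_self_eq_norm_sq, real_inner_self_eq_norm_sq]

theorem rho_J (w : E m) (x : E k) (y : E m) : rho (J 0 w) (J x y) = J x (rho w y) := by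
  unfold rho
  rw [J_inner, J_inner, inner_zero_left, inner_zero_left, zero_add, zero_add]
  conv_rhs => rw [← sub_zero x, J_sub]
  rw [← J_smul, smul_zero]

theorem rho_J' (v : E k) (x : E k) (y : E m) : rho (J v 0) (J x y) = J (rho v x) y := by
  unfold rho
  rw [J_inner, J_inner, inner_zero_left, inner_zero_left, add_zero, add_zero]
  conv_rhs => rw [← sub_zero y, J_sub]
  rw [← J_smul, smul_zero]

theorem rho_J'' (v : E k) (z : E (k + m)) :
    rho (J v 0) z = J (rho v (P1 k m z)) (P2 k m z) := by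
  conv_lhs => rw [← J_P z]
  exact rho_J' _ _ _

/-- second block as a linear map -/
noncomputable def Jr (k m : ℕ) : E m →ₗ[ℝ] E (k + m) where
  toFun y := J 0 y
  map_add' y y' := by rw [← J_add, add_zero]
  map_smul' a y := by rw [RingHom.id_apply, ← J_smul, smul_zero]

theorem Jr_apply (y : E m) : Jr k m y = J 0 y := rfl

theorem Jr_inj : Function.Injective (Jr k m) := by
  intro y y' h
  have h1 : P2 k m (J 0 y) = P2 k m (J 0 y') := congrArg _ h
  rwa [Pool.Agent.H438R2.PD.P2_J, Pool.Agent.H438R2.PD.P2_J] at h1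

end J

/-- densities which are invariant under the reflections in the vectors of pairwise orthogonal
subspaces of dimensions `d i` -/
def BR (n b : ℕ) (d : Fin b → ℕ) : Set (E n → ℂ) :=
  {g | ∃ V : Fin b → Submodule ℝ (E n),
    (∀ i j, i ≠ j → ∀ v ∈ V i, ∀ w ∈ V j, (⟪v, w⟫ : ℝ) = 0) ∧
    (∀ i, Module.finrank ℝ (V i) = d i) ∧ ∀ i, ∀ v ∈ V i, ∀ x, g (rho v x) = g x}

theorem finrank_map_inj {n m : ℕ} (f : E n →ₗ[ℝ] E m) (hf : Function.Injective f)
    (V : Submodule ℝ (E n)) : Module.finrank ℝ (V.map f) = Module.finrank ℝ V :=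
  (LinearEquiv.finrank_eq (Submodule.equivMapOfInjective f hf V)).symm

theorem gu_mem {M b k : ℕ} (d : Fin b → ℕ) (F : E M → ℂ) (hF : F ∈ BR M b d) :
    gu k F ∈ BR (1 + M) b d := by
  obtain ⟨V, h1, h2, h3⟩ := hF
  refine ⟨fun i => (V i).map (Jr 1 M), ?_, ?_, ?_⟩
  · rintro i j hij v ⟨v', hv', rfl⟩ w ⟨w', hw', rfl⟩
    rw [Jr_apply, Jr_apply, J_inner, inner_zero_left, zero_add]
    exact h1 i j hij v' hv' w' hw'
  · intro i
    rw [finrank_map_inj _ Jr_inj, h2]
  · rintro i v ⟨w, hw, rfl⟩ z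
    have h4 : rho (Jr 1 M w) z = J (P1 1 M z) (rho w (P2 1 M z)) := by
      conv_lhs => rw [← J_P z]
      exact rho_J _ _ _
    rw [h4]
    unfold gu
    simp only [indicator, mem_ofPred_eq, Pool.Agent.H438R2.PD.P1_J,
      Pool.Agent.H438R2.PD.P2_J, h3 i w hw]

theorem coords0 (k M : ℕ) (V : Submodule ℝ (E (k + M))) (hV : Module.finrank ℝ V = k) :
    ∃ Λ : E (k + M) ≃ₗᵢ[ℝ] E (k + M), (∀ x, P2 k M (Λ x) = 0 → x ∈ V) ∧
      (∀ w, (∀ v ∈ V, (⟪v, w⟫ : ℝ) = 0) → P1 k M (Λ w) = 0) := by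
  have hVo : Module.finrank ℝ Vᗮ = M := by
    have h1 := V.finrank_add_finrank_orthogonal
    rw [hV, finrank_euclideanSpace_fin] at h1
    omega
  set b : OrthonormalBasis (Fin M) ℝ Vᗮ := (stdOrthonormalBasis ℝ Vᗮ).reindex (finCongr hVo)
    with hb
  set c : OrthonormalBasis (Fin k) ℝ V := (stdOrthonormalBasis ℝ V).reindex (finCongr hV)
    with hc
  let L : E (k + M) →ₗ[ℝ] E (k + M) :=
    { toFun := fun x => J (c.repr (V.orthogonalProjectionOnto x))
        (b.repr (Vᗮ.orthogonalProjectionOnto x))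
      map_add' := by
        intro x y
        rw [← J_add, map_add, map_add, map_add, map_add]
      map_smul' := by
        intro a x
        rw [RingHom.id_apply, ← J_smul, map_smul, map_smul, map_smul, map_smul] }
  have hnorm : ∀ x, ‖L x‖ = ‖x‖ := by
    intro x
    have h1 : ‖L x‖ ^ 2 = ‖x‖ ^ 2 := by
      change ‖J (c.repr (V.orthogonalProjectionOnto x))
        (b.repr (Vᗮ.orthogonalProjectionOnto x))‖ ^ 2 = ‖x‖ ^ 2
      rw [J_norm_sq, LinearIsometryEquiv.norm_map, LinearIsometryEquiv.norm_map,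
        Submodule.norm_sq_eq_add_norm_sq_projection x V]
    exact (sq_eq_sq₀ (norm_nonneg _) (norm_nonneg _)).1 h1
  let Li : E (k + M) →ₗᵢ[ℝ] E (k + M) := ⟨L, hnorm⟩
  refine ⟨Li.toLinearIsometryEquiv rfl, ?_, ?_⟩
  · intro x hx
    have h2 : P2 k M (Li.toLinearIsometryEquiv rfl x) = b.repr (Vᗮ.orthogonalProjectionOnto x) := by
      change P2 k M (J (c.repr (V.orthogonalProjectionOnto x))
        (b.repr (Vᗮ.orthogonalProjectionOnto x))) = _
      exact Pool.Agent.H438R2.PD.P2_J _ _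
    rw [h2] at hx
    have h3 : Vᗮ.orthogonalProjectionOnto x = 0 := by
      have := congrArg b.repr.symm hx
      rwa [LinearIsometryEquiv.symm_apply_apply, map_zero] at this
    have h4 : x ∈ Vᗮᗮ := (Submodule.orthogonalProjectionOnto_eq_zero_iff).1 h3
    rwa [Submodule.orthogonal_orthogonal] at h4
  · intro w hw
    have h2 : P1 k M (Li.toLinearIsometryEquiv rfl w) = c.repr (V.orthogonalProjectionOnto w) := by
      change P1 k M (J (c.repr (V.orthogonalProjectionOnto w))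
        (b.repr (Vᗮ.orthogonalProjectionOnto w))) = _
      exact Pool.Agent.H438R2.PD.P1_J _ _
    have h3 : V.orthogonalProjectionOnto w = 0 :=
      (Submodule.orthogonalProjectionOnto_eq_zero_iff).2
        ((Submodule.mem_orthogonal _ _).2 hw)
    rw [h2, h3, map_zero]

theorem sg_norm (n : ℕ) : ∀ᵐ z ∂(sg n), ‖z‖ = 1 := by
  unfold sg
  rw [ae_map_iff measurable_subtype_coe.aemeasurable
    (measurableSet_eq_fun measurable_norm measurable_const)]
  refine Filter.Eventually.of_forall fun x => ?_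
  simpa using x.2

theorem T_congr {n : ℕ} (g h : E n → ℂ) (H : ∀ z, ‖z‖ = 1 → g z = h z) (x : E n) :
    T g x = T h x := by
  unfold T
  refine integral_congr_ae ?_
  filter_upwards [sg_norm n] with z hz
  rw [H z hz]

/-- one block -/
theorem step {M b : ℕ} (k : ℕ) (hk : 2 ≤ k) (hM : 1 ≤ M) (d : Fin b → ℕ) (P q : ℝ) (hP : 2 < P)
    (hyp : HypC k M (BR M b d) P) (hq : 1 < (q - 2) * (((k : ℝ) - 1) / 2 + 1 / (P - 2))) :
    RTC (k + M) (BR (k + M) (b + 1) (Fin.cons k d)) q := by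
  obtain ⟨C, hC, hT⟩ := T_bound k hk hM P q hP (BR M b d) hyp hq
  refine ⟨C, hC, fun g hg hgm hg1 => ?_⟩
  obtain ⟨V, h1, h2, h3⟩ := hg
  have hV0 : Module.finrank ℝ (V 0) = k := by
    have := h2 0
    rwa [Fin.cons_zero] at this
  obtain ⟨Λ, hΛ1, hΛ2⟩ := coords0 k M (V 0) hV0
  set g' : E (k + M) → ℂ := fun z => g (Λ.symm z) with hg'
  have hg'm : Measurable g' := hgm.comp Λ.symm.continuous.measurable
  have hΛr : ∀ (v : E (k + M)) z, Λ.symm (rho (Λ v) z) = rho v (Λ.symm z) := by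
    intro v z
    unfold rho
    have e1 : (⟪Λ v, z⟫ : ℝ) = ⟪v, Λ.symm z⟫ := by
      conv_lhs => rw [← Λ.apply_symm_apply z]
      rw [Λ.inner_map_map]
    rw [map_sub, map_smul, Λ.symm_apply_apply, e1, Λ.inner_map_map]
  have hinv : ∀ i, ∀ v ∈ V i, ∀ z, g' (rho (Λ v) z) = g' z := by
    intro i v hv z
    rw [hg']
    simp only
    rw [hΛr, h3 i v hv]
  have hinv0 : ∀ (u : E k) z, g' (rho (J u 0) z) = g' z := by
    intro u z
    have hu : Λ.symm (J u 0) ∈ V 0 := by
      apply hΛ1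
      rw [Λ.apply_symm_apply, Pool.Agent.H438R2.PD.P2_J]
    have := hinv 0 _ hu z
    rwa [Λ.apply_symm_apply] at this
  set e : E k := EuclideanSpace.single ⟨0, by omega⟩ (1 : ℝ) with he
  have he1 : ‖e‖ = 1 := by rw [he, EuclideanSpace.norm_single]; simp
  set F : E M → ℂ := fun y => g' (J (wt y • e) y) with hF
  have hFm : Measurable F := by
    have hp : Measurable fun y : E M => ((wt y • e, y) : E k × E M) :=
      ((wt_meas (m := M)).smul_const e).prodMk measurable_id
    exact hg'm.comp ((J_mp k M).measurable.comp hp)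
  have hF1 : ∀ y, ‖F y‖ ≤ 1 := fun y => hg1 _
  have hFmem : F ∈ BR M b d := by
    have hle : ∀ i : Fin b, (V i.succ).map Λ.toLinearEquiv.toLinearMap ≤
        LinearMap.range (Jr k M) := by
      rintro i _ ⟨v, hv, rfl⟩
      have h5 : P1 k M (Λ v) = 0 := hΛ2 v fun w hw => h1 0 i.succ (Fin.succ_ne_zero i).symm w hw v hv
      refine ⟨P2 k M (Λ v), ?_⟩
      rw [Jr_apply, ← h5, J_P]
      rfl
    refine ⟨fun i => ((V i.succ).map Λ.toLinearEquiv.toLinearMap).comap (Jr k M), ?_, ?_, ?_⟩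
    · rintro i j hij v ⟨v', hv', hv⟩ w ⟨w', hw', hw⟩
      have e1 : (⟪v, w⟫ : ℝ) = ⟪Jr k M v, Jr k M w⟫ := by
        rw [Jr_apply, Jr_apply, J_inner, inner_zero_left, zero_add]
      rw [e1, ← hv, ← hw]
      have e2 : (⟪Λ v', Λ w'⟫ : ℝ) = 0 := by
        rw [Λ.inner_map_map]
        exact h1 i.succ j.succ (fun h => hij (Fin.succ_injective _ h)) v' hv' w' hw'
      exact e2
    · intro i
      have e3 := Submodule.map_comap_eq_of_le (hle i)
      have e4 := finrank_map_inj (Jr k M) Jr_inj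
        (((V i.succ).map Λ.toLinearEquiv.toLinearMap).comap (Jr k M))
      rw [← e4, e3, finrank_map_inj _ Λ.injective, h2, Fin.cons_succ]
    · rintro i w ⟨v, hv, hw⟩ y
      have hwt : wt (rho w y) = wt y := by
        unfold wt
        rw [norm_rho]
      have e5 : Jr k M w = Λ v := hw.symm
      rw [hF]
      simp only
      rw [hwt, ← rho_J, ← Jr_apply, e5]
      exact hinv i.succ v hv _
  have hon : ∀ z, ‖z‖ = 1 → g' z = F (P2 k M z) := by
    intro z hz
    have hn := J_norm_sq (P1 k M z) (P2 k M z)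
    rw [J_P, hz] at hn
    have hwt : wt (P2 k M z) = ‖P1 k M z‖ := by
      unfold wt
      rw [show 1 - ‖P2 k M z‖ ^ 2 = ‖P1 k M z‖ ^ 2 by linarith, Real.sqrt_sq (norm_nonneg _)]
    have e6 := hinv0 (P1 k M z - wt (P2 k M z) • e) z
    rw [rho_J'', rho_swap _ _ (by rw [norm_smul, he1, mul_one, hwt, norm_norm])] at e6
    rw [← e6]
  have hTg : ∀ z, T g z = T (fun z : E (k + M) => F (P2 k M z)) (Λ z) := by
    intro z
    rw [← T_congr g' _ hon, ← T_comp]
    congr 1
    funext w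
    rw [hg']
    simp only
    rw [Λ.symm_apply_apply]
  have hmeas : Measurable fun z : E (k + M) =>
      ‖T (fun z : E (k + M) => F (P2 k M z)) z‖ₑ ^ q :=
    (T_meas' _ (hFm.comp (P2_meas k M))).enorm.pow_const q
  calc ∫⁻ z, ‖T g z‖ₑ ^ q = ∫⁻ z, ‖T (fun z : E (k + M) => F (P2 k M z)) (Λ z)‖ₑ ^ q := by
        refine lintegral_congr fun z => ?_
        rw [hTg]
    _ = ∫⁻ z, ‖T (fun z : E (k + M) => F (P2 k M z)) z‖ₑ ^ q :=
        Λ.measurePreserving.lintegral_comp hmeas
    _ ≤ _ := hT F hFmem hFm hF1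

/-- one block, restriction estimate for the sphere of lower dimension -/
theorem step' {M b : ℕ} (k : ℕ) (hk : 2 ≤ k) (hM : 1 ≤ M) (d : Fin b → ℕ) (P q : ℝ) (hP : 2 < P)
    (h : RTC (1 + M) (BR (1 + M) b d) P)
    (hq : 1 < (q - 2) * (((k : ℝ) - 1) / 2 + 1 / (P - 2))) :
    RTC (k + M) (BR (k + M) (b + 1) (Fin.cons k d)) q :=
  step k hk hM d P q hP (hyp_of_rest k hk hM P (BR M b d) (BR (1 + M) b d)
    (fun F hF _ _ => gu_mem d F hF) h) hq

end Pool.Agent.V5helper62.BL
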