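import Mathlib
import Pool.Agent.V5helper62.BL.C2
set_option autoImplicit false

/-! The induction over the blocks. -/

namespace Pool.Agent.V5helper62.BL

open MeasureTheory Set Complex
open scoped ENNReal RealInnerProductSpace
open Pool.Agent.TH335.RF (RT Hyp hyp_one stein_tomas)
open Pool.Agent.H789R2.FR (E sg T sg_finite)
open Pool.Agent.H438R2.PD (P1 P2 P1_meas P2_meas T_meas' T_le T_comp)

theorem exists_P (k : ℕ) (hk : 2 ≤ k) (B q : ℝ) (hB : 0 < B)
    (h : 1 < (q - 2) * (((k : ℝ) - 1) / 2 + B)) : ∃ P : ℝ, 2 < P ∧ 1 / (P - 2) < B ∧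
    1 < (q - 2) * (((k : ℝ) - 1) / 2 + 1 / (P - 2)) := by
  have hk' : (2 : ℝ) ≤ k := by exact_mod_cast hk
  have hq : 0 < q - 2 := by
    by_contra hc
    have : (q - 2) * (((k : ℝ) - 1) / 2 + B) ≤ 0 :=
      mul_nonpos_of_nonpos_of_nonneg (not_lt.1 hc) (by linarith)
    linarith
  have h1 : 1 / (q - 2) - ((k : ℝ) - 1) / 2 < B := by
    have h2 : 1 / (q - 2) < ((k : ℝ) - 1) / 2 + B := by
      rw [div_lt_iff₀ hq, mul_comm]
      exact h
    linarith
  obtain ⟨v, hv1, hv2⟩ := exists_between (max_lt h1 hB)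
  have hv0 : 0 < v := lt_of_le_of_lt (le_max_right _ _) hv1
  have hv3 : 1 / (q - 2) - ((k : ℝ) - 1) / 2 < v := lt_of_le_of_lt (le_max_left _ _) hv1
  refine ⟨2 + 1 / v, by linarith [one_div_pos.2 hv0], ?_, ?_⟩
  · rw [add_sub_cancel_left, one_div_one_div]
    exact hv2
  · rw [add_sub_cancel_left, one_div_one_div]
    have h4 : 1 / (q - 2) < ((k : ℝ) - 1) / 2 + v := by linarith
    rw [div_lt_iff₀ hq] at h4
    rw [mul_comm]
    exact h4

/-- larger exponents -/
theorem rtc_mono {n : ℕ} (hn : 1 ≤ n) (D : Set (E n → ℂ)) (P q : ℝ) (hP : 0 < P) (hPq : P ≤ q)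
    (h : RTC n D P) : RTC n D q := by
  obtain ⟨C, hC, hmain⟩ := h
  set S : ℝ := (sg n).real univ with hS
  have hS0 : 0 < S := Pool.Agent.H438R2.BR.T7.sg_pos hn
  refine ⟨S ^ (q - P) * C, by positivity, fun g hg hgm hg1 => ?_⟩
  have hb : ∀ z, ‖T g z‖ₑ ≤ ENNReal.ofReal S := by
    intro z
    rw [← ofReal_norm]
    apply ENNReal.ofReal_le_ofReal
    have h1 := T_le g 1 hg1 z
    rwa [one_mul] at h1
  calc ∫⁻ z, ‖T g z‖ₑ ^ q
      ≤ ∫⁻ z, ENNReal.ofReal S ^ (q - P) * ‖T g z‖ₑ ^ P := by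
        apply lintegral_mono
        intro z
        have h1 : ‖T g z‖ₑ ^ q = ‖T g z‖ₑ ^ (q - P) * ‖T g z‖ₑ ^ P := by
          rw [← ENNReal.rpow_add_of_nonneg _ _ (by linarith) (by linarith)]
          congr 1
          ring
        simp only
        rw [h1]
        exact mul_le_mul_left (ENNReal.rpow_le_rpow (hb z) (by linarith)) _
    _ = ENNReal.ofReal S ^ (q - P) * ∫⁻ z, ‖T g z‖ₑ ^ P := by
        rw [lintegral_const_mul']
        exact ENNReal.rpow_ne_top_of_nonneg (by linarith) ENNReal.ofReal_ne_top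
    _ ≤ ENNReal.ofReal S ^ (q - P) * ENNReal.ofReal C := by
        gcongr
        exact hmain g hg hgm hg1
    _ = _ := by
        rw [ENNReal.ofReal_rpow_of_nonneg hS0.le (by linarith), ← ENNReal.ofReal_mul (by positivity)]

theorem rtc_of_rt {n : ℕ} (D : Set (E n → ℂ)) (P : ℝ) (h : RT n P) : RTC n D P := by
  obtain ⟨C, hC, hmain⟩ := h
  exact ⟨C, hC, fun g _ hgm hg1 => hmain g hgm hg1⟩

theorem sum_ge {b : ℕ} (d : Fin b → ℕ) (hd : ∀ i, 2 ≤ d i) : 2 * b ≤ ∑ i, d i := by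
  have h1 : ∑ _i : Fin b, 2 ≤ ∑ i, d i := Finset.sum_le_sum fun i _ => hd i
  simp only [Finset.sum_const, Finset.card_univ, Fintype.card_fin, smul_eq_mul] at h1
  omega

/-- restriction estimates for the sphere of dimension `a + b - 1` give estimates for the block
radial densities -/
theorem claim : ∀ (b a n : ℕ) (d : Fin b → ℕ), (∀ i, 2 ≤ d i) → n = a + ∑ i, d i → 2 ≤ a + b →
    ∀ P q : ℝ, 2 < P → RT (a + b) P →
    1 < (q - 2) * (((n : ℝ) - (a + b)) / 2 + 1 / (P - 2)) → RTC n (BR n b d) q := by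
  intro b
  induction b with
  | zero =>
    intro a n d hd hn hab P q hP hRT hq
    have hna : n = a := by simpa using hn
    subst hna
    have hPq : P ≤ q := by
      have h1 : ((n : ℝ) - (n + (0 : ℕ))) / 2 + 1 / (P - 2) = 1 / (P - 2) := by
        push_cast; ring
      have hP2 : 0 < P - 2 := by linarith
      rw [h1, mul_one_div, one_lt_div hP2] at hq
      linarith
    exact rtc_mono (by omega) _ P q (by linarith) hPq (rtc_of_rt _ P (by simpa using hRT))
  | succ b ih =>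
    intro a n d hd hn hab P q hP hRT hq
    set k : ℕ := d 0 with hkd
    have hk : 2 ≤ k := hd 0
    set M : ℕ := a + ∑ i : Fin b, d i.succ with hM
    have hnk : n = k + M := by
      rw [hn, Fin.sum_univ_succ, hM, hkd]
      ring
    have hge := sum_ge (fun i : Fin b => d i.succ) (fun i => hd _)
    have hM1 : 1 ≤ M := by omega
    have hMab : a + b ≤ M := by omega
    have hMab' : (a : ℝ) + b ≤ M := by exact_mod_cast hMab
    have hP2 : 0 < P - 2 := by linarith
    set B : ℝ := ((M : ℝ) - a - b) / 2 + 1 / (P - 2) with hB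
    have hB0 : 0 < B := by
      have : 0 < 1 / (P - 2) := by positivity
      rw [hB]
      linarith
    have hqB : 1 < (q - 2) * (((k : ℝ) - 1) / 2 + B) := by
      have h1 : ((n : ℝ) - ((a : ℝ) + ((b + 1 : ℕ) : ℝ))) / 2 + 1 / (P - 2) =
          ((k : ℝ) - 1) / 2 + B := by
        rw [hnk, hB]
        push_cast
        ring
      rwa [h1] at hq
    obtain ⟨Q, hQ, hQB, hqQ⟩ := exists_P k hk B q hB0 hqB
    have hQ2 : 0 < Q - 2 := by linarith
    have hR : RTC (1 + M) (BR (1 + M) b (fun i : Fin b => d i.succ)) Q := by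
      refine ih (1 + a) (1 + M) (fun i => d i.succ) (fun i => hd _) (by rw [hM]; ring) (by omega)
        P Q hP ?_ ?_
      · have h2 : 1 + a + b = a + (b + 1) := by ring
        rw [h2]
        exact hRT
      · have h3 : (((1 + M : ℕ) : ℝ) - (((1 + a : ℕ) : ℝ) + b)) / 2 + 1 / (P - 2) = B := by
          rw [hB]
          push_cast
          ring
        rw [h3]
        rw [div_lt_iff₀ hQ2, mul_comm] at hQB
        exact hQB
    have h4 := step' k hk hM1 (fun i : Fin b => d i.succ) Q q hQ hR hqQ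
    have h5 : (Fin.cons k (fun i : Fin b => d i.succ) : Fin (b + 1) → ℕ) = d := by
      rw [hkd]
      exact Fin.cons_self_tail d
    rw [h5] at h4
    subst hnk
    exact h4

theorem hypc_one (k : ℕ) (hk : 2 ≤ k) (D : Set (E 1 → ℂ)) : HypC k 1 D 4 := by
  intro δ hδ
  obtain ⟨C, hC, h⟩ := hyp_one k hk δ hδ
  exact ⟨C, hC, fun F _ hFm hF => h F hFm hF⟩

/-- one block and one further direction -/
theorem one_one (k : ℕ) (hk : 2 ≤ k) (d : Fin 1 → ℕ) (hd : d 0 = k) (q : ℝ)
    (hq : 1 < (q - 2) * ((k : ℝ) / 2)) : RTC (k + 1) (BR (k + 1) 1 d) q := by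
  have h1 := step k hk le_rfl (fun i : Fin 0 => i.elim0) 4 q (by norm_num) (hypc_one k hk _) (by
    have h2 : ((k : ℝ) - 1) / 2 + 1 / (4 - 2) = (k : ℝ) / 2 := by ring
    rwa [h2])
  have h5 : (Fin.cons k (fun i : Fin 0 => i.elim0) : Fin 1 → ℕ) = d := by
    funext i
    have : i = 0 := Fin.ext (by have := i.2; simp only [Fin.val_zero]; omega)
    subst this
    rw [Fin.cons_zero, hd]
  rwa [h5] at h1

/-- `a + b = 2` and `1 ≤ b`, the full range -/
theorem claim_two (b a n : ℕ) (d : Fin b → ℕ) (hd : ∀ i, 2 ≤ d i) (hn : n = a + ∑ i, d i)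
    (hab : a + b = 2) (hb : 1 ≤ b) (q : ℝ) (hq : 1 < (q - 2) * (((n : ℝ) - 1) / 2)) :
    RTC n (BR n b d) q := by
  have hb12 : b = 1 ∨ b = 2 := by omega
  rcases hb12 with rfl | rfl
  · have ha : a = 1 := by omega
    subst ha
    have hnk : n = d 0 + 1 := by rw [hn]; simp [add_comm]
    subst hnk
    refine one_one (d 0) (hd 0) d rfl q ?_
    have h1 : (((d 0 + 1 : ℕ) : ℝ) - 1) / 2 = (d 0 : ℝ) / 2 := by push_cast; ring
    rwa [h1] at hq
  · have ha : a = 0 := by omega
    subst ha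
    set k : ℕ := d 0 with hkd
    have hk : 2 ≤ k := hd 0
    have hk2 : 2 ≤ d 1 := hd 1
    have hnk : n = k + d 1 := by rw [hn]; simp [Fin.sum_univ_succ, hkd]
    subst hnk
    set B : ℝ := (d 1 : ℝ) / 2 with hB
    have hk2' : (2 : ℝ) ≤ d 1 := by exact_mod_cast hk2
    have hB0 : 0 < B := by rw [hB]; linarith
    obtain ⟨Q, hQ, hQB, hqQ⟩ := exists_P k hk B q hB0 (by
      have h1 : (((k + d 1 : ℕ) : ℝ) - 1) / 2 = ((k : ℝ) - 1) / 2 + B := by
        rw [hB]; push_cast; ring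
      rwa [h1] at hq)
    have hQ2 : 0 < Q - 2 := by linarith
    have hR : RTC (d 1 + 1) (BR (d 1 + 1) 1 (fun i : Fin 1 => d i.succ)) Q := by
      refine one_one (d 1) hk2 _ rfl Q ?_
      rw [div_lt_iff₀ hQ2, mul_comm] at hQB
      exact hQB
    have hR' : RTC (1 + d 1) (BR (1 + d 1) 1 (fun i : Fin 1 => d i.succ)) Q := by
      rw [add_comm 1 (d 1)]
      exact hR
    have h4 := step' k hk (by omega) (fun i : Fin 1 => d i.succ) Q q hQ hR' hqQ
    have h5 : (Fin.cons k (fun i : Fin 1 => d i.succ) : Fin (1 + 1) → ℕ) = d := by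
      rw [hkd]
      exact Fin.cons_self_tail d
    rwa [h5] at h4

end Pool.Agent.V5helper62.BL
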